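import Pool.Agent.J4H98.K1.FinB

set_option autoImplicit false

/-!
Project K1 of helper69 (`MP_26ad15_nt`), job FIN: the fibres over generic points are finite.
-/

namespace Pool.Agent.J4H98.K1

open Filter Topology Set Metric Polynomial Bornology
open Pool.Agent.J4H69.K1
open Pool.Agent.J4H69.AX (HasDisc HasPiece)

noncomputable section

/-- substitute `z_i = c`, `y_i = rg c`; the variables `z_j, z_k, y_j, y_k` become `X 0, …, X 3` -/
def sub4 (i j : Fin 3) (c : ℂ) : Pol →+* MvPolynomial (Fin 4) ℂ :=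
  MvPolynomial.eval₂Hom MvPolynomial.C (Sum.elim
    (fun l => if l = i then MvPolynomial.C c else if l = j then MvPolynomial.X 0 else MvPolynomial.X 1)
    (fun l => if l = i then MvPolynomial.C (rg c) else if l = j then MvPolynomial.X 2
      else MvPolynomial.X 3))

lemma ev_sub4 {i j k : Fin 3} (hij : i ≠ j) (hik : i ≠ k) (hjk : j ≠ k) (c : ℂ) (z : Fin 3 → ℂ)
    (hz : z i = c) (R : Pol) :
    MvPolynomial.eval ![z j, z k, rg (z j), rg (z k)] (sub4 i j c R) =
      MvPolynomial.eval (env rg z) R := by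
  have h : (MvPolynomial.eval ![z j, z k, rg (z j), rg (z k)]).comp (sub4 i j c) =
      MvPolynomial.eval (env rg z) := by
    refine MvPolynomial.ringHom_ext (fun a => ?_) (fun l => ?_)
    · simp [sub4]
    · rcases l with l | l
      · rcases three hij hik hjk l with rfl | rfl | rfl
        · simp [sub4, env, hz]
        · simp [sub4, env, Ne.symm hij]
        · simp [sub4, env, Ne.symm hik, Ne.symm hjk]
      · rcases three hij hik hjk l with rfl | rfl | rfl
        · simp [sub4, env, hz]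
        · simp [sub4, env, Ne.symm hij]
        · simp [sub4, env, Ne.symm hik, Ne.symm hjk]
  exact congrArg (fun f => f R) h

theorem t_FIN : S_MIS → S_TRN → S_DET → S_COM → S_FIN := by
  intro hMis hTrn hDet hCom T I hT hI hTI i j k hij hik hjk hAlg hAlg' hNd Q₀ hQ₀ hQ₀I hdj hdk
    Q P P' hQI hPI hP'I hQy hPk hP'j hQi hPj hP'k
  classical
  -- relations
  obtain ⟨E₂, hE₂, hE₂I⟩ := hAlg (MvPolynomial.X (Sum.inr j))
  obtain ⟨E₁, hE₁, hE₁I⟩ := hAlg (MvPolynomial.X (Sum.inl k))
  obtain ⟨E₃, hE₃, hE₃I⟩ := hAlg (MvPolynomial.X (Sum.inr k))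
  obtain ⟨E₄, hE₄, hE₄I⟩ := hAlg' (MvPolynomial.X (Sum.inr k))
  have hr1 : ∀ z ∈ T, (E₁.map (spec (z i))).evalEval (z j) (z k) = 0 := by
    intro z hz
    have h := hTI z hz _ hE₁I
    rw [ev_rel] at h
    simpa [env] using h
  have hr2 : ∀ z ∈ T, (E₂.map (spec (z i))).evalEval (z j) (rg (z j)) = 0 := by
    intro z hz
    have h := hTI z hz _ hE₂I
    rw [ev_rel] at h
    simpa [env] using h
  have hr3 : ∀ z ∈ T, (E₃.map (spec (z i))).evalEval (z j) (rg (z k)) = 0 := by
    intro z hz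
    have h := hTI z hz _ hE₃I
    rw [ev_rel] at h
    simpa [env] using h
  have hr4 : ∀ z ∈ T, (E₄.map (spec (z i))).evalEval (z k) (rg (z k)) = 0 := by
    intro z hz
    have h := hTI z hz _ hE₄I
    rw [ev_rel] at h
    simpa [env] using h
  -- the leading coefficient
  set α₀ : Pol := MvPolynomial.pderiv (Sum.inl i) Q * MvPolynomial.pderiv (Sum.inr j) P *
    MvPolynomial.pderiv (Sum.inr k) P' with hα₀
  have hα₀I : α₀ ∉ I := by
    intro h
    rcases hI.mem_or_mem h with h | h
    · rcases hI.mem_or_mem h with h | h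
      · exact hQi h
      · exact hPj h
    · exact hP'k h
  obtain ⟨A, V, hA, hAV⟩ := hNd α₀ hα₀I
  have hAT : ∀ z ∈ T, (spec (z i) A).eval (z j) =
      MvPolynomial.eval (env rg z) α₀ * MvPolynomial.eval (env rg z) V := by
    intro z hz
    have h := hTI z hz _ hAV
    rw [map_sub, map_mul, ev_spec, sub_eq_zero] at h
    exact h
  have hQT : ∀ z ∈ T, MvPolynomial.eval z Q₀ = 0 := by
    intro z hz
    have h := hTI z hz _ hQ₀I
    rw [MvPolynomial.eval_rename] at h
    exact h
  -- the exceptional sets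
  have hD2 := map_spec_noAcc hTrn hE₂
  have hD4 := map_spec_noAcc hTrn hE₄
  set DD : Set ℂ := {c | E₂.map (spec c) = 0} ∪ {c | E₄.map (spec c) = 0} with hDD
  have hDDn : NoAcc DD := hD2.union hD4
  refine ⟨DDᶜ, hDDn.closed.isOpen_compl, ?_, ?_, ?_⟩
  · by_contra hne
    rw [Set.not_nonempty_iff_eq_empty, Set.compl_empty_iff] at hne
    have h1 := hDDn.countable
    rw [hne] at h1
    exact not_countable_complex h1
  · intro c hc
    have hc2 : E₂.map (spec c) ≠ 0 := fun h => hc (Or.inl h)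
    have hc4 : E₄.map (spec c) ≠ 0 := fun h => hc (Or.inr h)
    exact fibre_noAcc hij hik hjk (hTrn _ hc2) (hTrn _ hc4)
      (fun z hz hzc => by have := hr2 z hz; rw [hzc] at this; exact this)
      (fun z hz hzc => by have := hr4 z hz; rw [hzc] at this; exact this)
  -- the countable set
  refine ⟨{a : ℂ | ∃ z : Fin 3 → ℂ, z i = a ∧ ∀ c, MvPolynomial.eval (Function.update z k c) Q₀ = 0} ∪
    {a : ℂ | ∃ z : Fin 3 → ℂ, z i = a ∧ ∀ c, MvPolynomial.eval (Function.update z j c) Q₀ = 0} ∪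
    {c | E₁.map (spec c) = 0} ∪ {c | E₃.map (spec c) = 0} ∪ {c | spec c A = 0}, ?_, ?_⟩
  · exact ((((hCom Q₀ i k hik hQ₀ hdk).union (hCom Q₀ i j hij hQ₀ hdj)).union
      (map_spec_noAcc hTrn hE₁).countable).union (map_spec_noAcc hTrn hE₃).countable).union
      (spec_noAcc hTrn hA).countable
  intro c hc hcC
  have hc2 : E₂.map (spec c) ≠ 0 := fun h => hc (Or.inl h)
  have hc4 : E₄.map (spec c) ≠ 0 := fun h => hc (Or.inr h)
  simp only [mem_union, not_or] at hcC
  obtain ⟨⟨⟨⟨hck, hcj⟩, hc1⟩, hc3⟩, hcA⟩ := hcC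
  by_contra hinf
  have hinf' : {z ∈ T | z i = c}.Infinite := hinf
  set e := hinf'.natEmbedding with he
  set p : ℕ → (Fin 3 → ℂ) := fun n => (e n : Fin 3 → ℂ) with hp
  have hpinj : Function.Injective p := fun a b h => e.injective (Subtype.ext h)
  have hpT : ∀ n, p n ∈ T := fun n => (e n).2.1
  have hpi : ∀ n, p n i = c := fun n => (e n).2.2
  have hj : Tendsto (fun n => ‖p n j‖) atTop atTop :=
    coord_tendsto hij hik hjk (hTrn _ hc2) hpinj hpi
      (fun n => by have := hr2 _ (hpT n); rw [hpi] at this; exact this)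
      (fun n => hQT _ (hpT n)) hck
  have hk : Tendsto (fun n => ‖p n k‖) atTop atTop :=
    coord_tendsto hik hij hjk.symm (hTrn _ hc4) hpinj hpi
      (fun n => by have := hr4 _ (hpT n); rw [hpi] at this; exact this)
      (fun n => hQT _ (hpT n)) hcj
  -- the leading coefficient is not zero for large n
  have hcA' : spec c A ≠ 0 := hcA
  have hne : ∀ᶠ n in atTop, MvPolynomial.eval (env rg (p n)) α₀ ≠ 0 := by
    have hfin : {t : ℂ | (spec c A).IsRoot t}.Finite := Polynomial.finite_setOfPred_isRoot hcA'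
    obtain ⟨M, hM⟩ := (hfin.image norm).bddAbove
    filter_upwards [hj.eventually_gt_atTop M] with n hn h0
    have h1 := hAT _ (hpT n)
    rw [h0, zero_mul, hpi] at h1
    have h2 : ‖p n j‖ ≤ M := hM ⟨p n j, h1, rfl⟩
    exact absurd hn (not_lt.mpr h2)
  obtain ⟨n₀, hn₀⟩ := eventually_atTop.mp hne
  -- the polynomials of MIS
  set Gi : ℂ := deriv rg c with hGi
  set S : Pol →+* MvPolynomial (Fin 4) ℂ := sub4 i j c with hS
  set p1 : MvPolynomial (Fin 4) ℂ := S (MvPolynomial.pderiv (Sum.inl i) P) +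
    S (MvPolynomial.pderiv (Sum.inr i) P) * MvPolynomial.C Gi with hp1
  set p2 : MvPolynomial (Fin 4) ℂ := S (MvPolynomial.pderiv (Sum.inl i) P') +
    S (MvPolynomial.pderiv (Sum.inr i) P') * MvPolynomial.C Gi with hp2
  set α := S α₀ with hα
  set β := S (MvPolynomial.pderiv (Sum.inl i) Q) * S (MvPolynomial.pderiv (Sum.inr j) P) *
      S (MvPolynomial.pderiv (Sum.inl k) P') -
    S (MvPolynomial.pderiv (Sum.inl k) Q) * S (MvPolynomial.pderiv (Sum.inr j) P) * p2 with hβ
  set γ := S (MvPolynomial.pderiv (Sum.inl i) Q) * S (MvPolynomial.pderiv (Sum.inl j) P) *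
      S (MvPolynomial.pderiv (Sum.inr k) P') -
    S (MvPolynomial.pderiv (Sum.inl j) Q) * p1 * S (MvPolynomial.pderiv (Sum.inr k) P') with hγ
  set δ := S (MvPolynomial.pderiv (Sum.inl i) Q) * (S (MvPolynomial.pderiv (Sum.inl j) P) *
      S (MvPolynomial.pderiv (Sum.inl k) P') - S (MvPolynomial.pderiv (Sum.inl k) P) *
      S (MvPolynomial.pderiv (Sum.inl j) P')) -
    S (MvPolynomial.pderiv (Sum.inl j) Q) * (p1 * S (MvPolynomial.pderiv (Sum.inl k) P') -
      S (MvPolynomial.pderiv (Sum.inl k) P) * p2) +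
    S (MvPolynomial.pderiv (Sum.inl k) Q) * (p1 * S (MvPolynomial.pderiv (Sum.inl j) P') -
      S (MvPolynomial.pderiv (Sum.inl j) P) * p2) with hδ
  have hshift : ∀ {f : ℕ → ℝ}, Tendsto f atTop atTop → Tendsto (fun n => f (n + n₀)) atTop atTop :=
    fun h => (tendsto_add_atTop_iff_nat n₀).mpr h
  have key := hMis (fun n => p (n + n₀) j) (fun n => p (n + n₀) k) (hshift hj) (hshift hk)
    (E₁.map (spec c)) (E₂.map (spec c)) (E₃.map (spec c)) hc1 hc2 hc3
    (fun n => by have := hr1 _ (hpT (n + n₀)); rw [hpi] at this; exact this)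
    (fun n => by have := hr2 _ (hpT (n + n₀)); rw [hpi] at this; exact this)
    (fun n => by have := hr3 _ (hpT (n + n₀)); rw [hpi] at this; exact this)
    α β γ δ ?_
  · obtain ⟨n, hn⟩ := key
    rw [hα, ev_sub4 hij hik hjk c _ (hpi _)] at hn
    exact hn₀ (n + n₀) (Nat.le_add_left _ _) hn
  · intro n
    set z := p (n + n₀) with hz
    have hzT : z ∈ T := hpT _
    have hzi : z i = c := hpi _
    have hR : ∀ w ∈ T, ∀ l, MvPolynomial.eval (env rg w) ((![Q, P, P'] : Fin 3 → Pol) l) = 0 := by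
      intro w hw l
      fin_cases l
      · exact hTI w hw _ hQI
      · exact hTI w hw _ hPI
      · exact hTI w hw _ hP'I
    have hdet := det_zero hDet hT ![Q, P, P'] hR z hzT
    have hdet' := det_perm hij hik hjk (fun a b => dd rg ((![Q, P, P'] : Fin 3 → Pol) a) b z) hdet
    simp only [dd, Matrix.cons_val_zero, Matrix.cons_val_one, Matrix.cons_val, hQy, hPk, hP'j, map_zero,
      zero_mul, add_zero, hzi] at hdet'
    simp only [hα, hα₀, hβ, hγ, hδ, hp1, hp2, map_add, map_sub, map_mul, MvPolynomial.eval_C]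
    simp only [hS, ev_sub4 hij hik hjk c z hzi]
    simp only [hGi]
    linear_combination hdet'

end

end Pool.Agent.J4H98.K1
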