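import Pool.Agent.J4H69.K1.Stm

set_option autoImplicit false

/-!
Project K1 of helper69 (`MP_26ad15_nt`), job CL: the algebraic elements of the ultrapower form a field.
-/

namespace Pool.Agent.J4H98.K1

open Filter Topology Set Metric Polynomial
open Pool.Agent.J4H69.K1

noncomputable section

/-- evaluation at the sequence `x` -/
def evx (x : ℕ → ℂ) : Polynomial ℂ →+* (ℕ → ℂ) := RingHom.pi fun j => evalRingHom (x j)

lemma evx_apply (x : ℕ → ℂ) (q : Polynomial ℂ) (j : ℕ) : evx x q j = q.eval (x j) := rfl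

/-- the structure map into the ultrapower -/
def phi (u : Ultrafilter ℕ) (x : ℕ → ℂ) : Polynomial ℂ →+* Germ (u : Filter ℕ) ℂ :=
  (Germ.coeRingHom (u : Filter ℕ)).comp (evx x)

/-- the structure of an algebra -/
@[reducible] def alg (u : Ultrafilter ℕ) (x : ℕ → ℂ) : Algebra (Polynomial ℂ) (Germ (u : Filter ℕ) ℂ) :=
  (phi u x).toAlgebra

lemma ev2 (x a : ℕ → ℂ) (E : Polynomial (Polynomial ℂ)) (j : ℕ) :
    (E.eval₂ (evx x) a) j = E.evalEval (x j) (a j) := by
  have h1 := Polynomial.hom_eval₂ E (evx x) (Pi.evalRingHom (fun _ : ℕ => ℂ) j) a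
  have h2 : (Pi.evalRingHom (fun _ : ℕ => ℂ) j).comp (evx x) = evalRingHom (x j) := by
    ext <;> simp [evx_apply]
  rw [h2] at h1
  simp only [Pi.evalRingHom_apply] at h1
  rw [h1]
  exact congrFun (congrFun (Polynomial.eval₂_evalRingHom (x j)) (a j)) E

lemma alg_iff (u : Ultrafilter ℕ) (x a : ℕ → ℂ) :
    @IsAlgebraic (Polynomial ℂ) (Germ (u : Filter ℕ) ℂ) _ _ (alg u x) (a : Germ (u : Filter ℕ) ℂ) ↔
      Alg u x a := by
  let _ := alg u x
  have key : ∀ E : Polynomial (Polynomial ℂ), aeval (a : Germ (u : Filter ℕ) ℂ) E = 0 ↔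
      ∀ᶠ j in (u : Filter ℕ), E.evalEval (x j) (a j) = 0 := by
    intro E
    have h1 : aeval (a : Germ (u : Filter ℕ) ℂ) E =
        ((E.eval₂ (evx x) a : ℕ → ℂ) : Germ (u : Filter ℕ) ℂ) := by
      have := Polynomial.hom_eval₂ E (evx x) (Germ.coeRingHom (u : Filter ℕ)) a
      exact this.symm
    rw [h1]
    constructor
    · intro h
      have h2 : (E.eval₂ (evx x) a) =ᶠ[(u : Filter ℕ)] (0 : ℕ → ℂ) := Germ.coe_eq.mp h
      filter_upwards [h2] with j hj
      rw [ev2] at hj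
      exact hj
    · intro h
      have h2 : (E.eval₂ (evx x) a) =ᶠ[(u : Filter ℕ)] (0 : ℕ → ℂ) := by
        filter_upwards [h] with j hj
        rw [ev2]
        exact hj
      exact Germ.coe_eq.mpr h2
  constructor
  · rintro ⟨E, hE, h⟩
    exact ⟨E, hE, (key E).mp h⟩
  · rintro ⟨E, hE, h⟩
    exact ⟨E, hE, (key E).mpr h⟩

theorem t_CL : S_CL := by
  intro u x _
  let _ := alg u x
  refine ⟨fun c => ?_, ?_, fun a b ha hb => ?_, fun a b ha hb => ?_, fun a ha => ?_, fun a b ha hb => ?_⟩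
  · rw [← alg_iff]
    have h1 := isAlgebraic_algebraMap (R := Polynomial ℂ) (A := Germ (u : Filter ℕ) ℂ) (C c)
    have h2 : evx x (C c) = fun _ => c := by
      funext j
      simp [evx_apply]
    have h3 : algebraMap (Polynomial ℂ) (Germ (u : Filter ℕ) ℂ) (C c) =
        ((fun _ : ℕ => c : ℕ → ℂ) : Germ (u : Filter ℕ) ℂ) := by
      rw [← h2]; rfl
    rwa [h3] at h1
  · rw [← alg_iff]
    have h1 := isAlgebraic_algebraMap (R := Polynomial ℂ) (A := Germ (u : Filter ℕ) ℂ) X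
    have h2 : evx x X = x := by
      funext j
      simp [evx_apply]
    have h3 : algebraMap (Polynomial ℂ) (Germ (u : Filter ℕ) ℂ) X =
        ((x : ℕ → ℂ) : Germ (u : Filter ℕ) ℂ) := by
      conv_rhs => rw [← h2]
      rfl
    rwa [h3] at h1
  · rw [← alg_iff] at ha hb ⊢
    exact ha.add hb
  · rw [← alg_iff] at ha hb ⊢
    exact ha.mul hb
  · rw [← alg_iff] at ha ⊢
    exact ha.inv
  · obtain ⟨E, hE, h⟩ := ha
    refine ⟨E, hE, ?_⟩
    filter_upwards [h, hb] with j h1 h2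
    rw [← h2]; exact h1

end

end Pool.Agent.J4H98.K1
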