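import Pool.Agent.J4H98.K1.Pc

set_option autoImplicit false

/-!
Project K1 of helper69 (`MP_26ad15_nt`), job DOM: dominance.
-/

namespace Pool.Agent.J4H98.K1

open Filter Topology Set Metric Polynomial Bornology
open Pool.Agent.J4H69.K1

noncomputable section

/-- smaller power of `x` -/
lemma dom_lt {u : Ultrafilter ℕ} {x L a b : ℕ → ℂ} (hx : Tendsto (fun j => ‖x j‖) u atTop)
    (hL : Tendsto (fun j => ‖L j‖) u atTop)
    (hs : ∀ ε : ℝ, 0 < ε → ∀ᶠ j in (u : Filter ℕ), ‖L j‖ ≤ ‖x j‖ ^ ε) {v w C D : ℝ} (hvw : v < w)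
    (hC : 0 < C) (hD : 0 < D) (ha : ∀ᶠ j in (u : Filter ℕ), ‖a j‖ ≤ C * ‖x j‖ ^ v)
    (hb : ∀ᶠ j in (u : Filter ℕ), D⁻¹ * ‖x j‖ ^ w ≤ ‖b j‖) (i k : ℕ) {ε₀ : ℝ} (hε : 0 < ε₀) :
    ∀ᶠ j in (u : Filter ℕ), ‖a j * L j ^ i‖ ≤ ε₀ * ‖b j * L j ^ k‖ := by
  set δ : ℝ := w - v with hδ
  have hδ0 : 0 < δ := sub_pos.mpr hvw
  have hi : (0 : ℝ) < 2 * (i + 1) := by positivity
  have h1 : Tendsto (fun j => ‖x j‖ ^ (δ / 2)) u atTop :=
    (tendsto_rpow_atTop (by positivity)).comp hx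
  filter_upwards [ha, hb, hs (δ / (2 * (i + 1))) (by positivity), h1.eventually_ge_atTop (C * D / ε₀),
    hx.eventually_ge_atTop 1, hL.eventually_ge_atTop 1] with j h2 h3 h4 h5 h6 h7
  have hx0 : 0 < ‖x j‖ := by linarith
  have h8 : ‖L j‖ ^ i ≤ ‖x j‖ ^ (δ / 2) := by
    calc ‖L j‖ ^ i ≤ (‖x j‖ ^ (δ / (2 * (i + 1)))) ^ i := by gcongr
      _ = ‖x j‖ ^ (δ / (2 * (i + 1)) * i) := by rw [← Real.rpow_natCast, ← Real.rpow_mul hx0.le]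
      _ ≤ ‖x j‖ ^ (δ / 2) := by
        refine Real.rpow_le_rpow_of_exponent_le h6 ?_
        rw [div_mul_eq_mul_div, div_le_div_iff₀ hi (by norm_num)]
        nlinarith
  have h9 : 1 ≤ ‖L j‖ ^ k := one_le_pow₀ h7
  rw [norm_mul, norm_mul, norm_pow, norm_pow]
  have h10 : C * ‖x j‖ ^ (δ / 2) ≤ ε₀ * (D⁻¹ * (‖x j‖ ^ (δ / 2) * ‖x j‖ ^ (δ / 2))) := by
    have h11 : C ≤ ε₀ * (D⁻¹ * ‖x j‖ ^ (δ / 2)) := by
      rw [div_le_iff₀ hε] at h5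
      rw [← mul_assoc, mul_comm ε₀, mul_assoc, ← div_eq_inv_mul, le_div_iff₀ hD]
      linarith
    have h12 : 0 < ‖x j‖ ^ (δ / 2) := Real.rpow_pos_of_pos hx0 _
    nlinarith
  have h13 : ‖x j‖ ^ w = ‖x j‖ ^ v * (‖x j‖ ^ (δ / 2) * ‖x j‖ ^ (δ / 2)) := by
    rw [← Real.rpow_add hx0, ← Real.rpow_add hx0]
    congr 1
    rw [hδ]; ring
  have h14 : 0 < ‖x j‖ ^ v := Real.rpow_pos_of_pos hx0 _
  calc ‖a j‖ * ‖L j‖ ^ i ≤ (C * ‖x j‖ ^ v) * ‖x j‖ ^ (δ / 2) := by gcongr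
    _ = ‖x j‖ ^ v * (C * ‖x j‖ ^ (δ / 2)) := by ring
    _ ≤ ‖x j‖ ^ v * (ε₀ * (D⁻¹ * (‖x j‖ ^ (δ / 2) * ‖x j‖ ^ (δ / 2)))) := by gcongr
    _ = ε₀ * (D⁻¹ * ‖x j‖ ^ w) := by rw [h13]; ring
    _ ≤ ε₀ * (‖b j‖ * ‖L j‖ ^ k) :=
      mul_le_mul_of_nonneg_left (h3.trans (le_mul_of_one_le_right (norm_nonneg _) h9)) hε.le

/-- the same power of `x`, smaller power of `L` -/
lemma dom_eq {u : Ultrafilter ℕ} {x L a b : ℕ → ℂ} (hx : Tendsto (fun j => ‖x j‖) u atTop)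
    (hL : Tendsto (fun j => ‖L j‖) u atTop) {v C D : ℝ} (hD : 0 < D) (ha : ∀ᶠ j in (u : Filter ℕ), ‖a j‖ ≤ C * ‖x j‖ ^ v)
    (hb : ∀ᶠ j in (u : Filter ℕ), D⁻¹ * ‖x j‖ ^ v ≤ ‖b j‖) {i k : ℕ} (hik : i < k) {ε₀ : ℝ}
    (hε : 0 < ε₀) :
    ∀ᶠ j in (u : Filter ℕ), ‖a j * L j ^ i‖ ≤ ε₀ * ‖b j * L j ^ k‖ := by
  filter_upwards [ha, hb, hL.eventually_ge_atTop (C * D / ε₀), hx.eventually_ge_atTop 1,
    hL.eventually_ge_atTop 1] with j h2 h3 h5 h6 h7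
  have hx0 : 0 < ‖x j‖ := by linarith
  have h14 : 0 < ‖x j‖ ^ v := Real.rpow_pos_of_pos hx0 _
  have h9 : ‖L j‖ ^ i * ‖L j‖ ≤ ‖L j‖ ^ k := by
    rw [← pow_succ]
    exact pow_le_pow_right₀ h7 hik
  rw [norm_mul, norm_mul, norm_pow, norm_pow]
  have h11 : C ≤ ε₀ * (D⁻¹ * ‖L j‖) := by
    rw [div_le_iff₀ hε] at h5
    rw [← mul_assoc, mul_comm ε₀, mul_assoc, ← div_eq_inv_mul, le_div_iff₀ hD]
    linarith
  have hLi : 0 ≤ ‖L j‖ ^ i := by positivity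
  calc ‖a j‖ * ‖L j‖ ^ i ≤ (C * ‖x j‖ ^ v) * ‖L j‖ ^ i := by gcongr
    _ ≤ (ε₀ * (D⁻¹ * ‖L j‖) * ‖x j‖ ^ v) * ‖L j‖ ^ i := by gcongr
    _ = ε₀ * ((D⁻¹ * ‖x j‖ ^ v) * (‖L j‖ ^ i * ‖L j‖)) := by ring
    _ ≤ ε₀ * (‖b j‖ * ‖L j‖ ^ k) := by gcongr

theorem t_DOM : S_DOM := by
  intro u x L hx hL hs d b hb hd
  classical
  set S : Finset ℕ := (Finset.range (d + 1)).filter (fun i => ¬ ∀ᶠ j in (u : Filter ℕ), b i j = 0) with hS
  have hdS : d ∈ S := by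
    rw [hS, Finset.mem_filter]
    exact ⟨Finset.mem_range.mpr (Nat.lt_succ_self d), hd⟩
  have hex : ∀ i : ℕ, ∃ (v : ℚ) (C : ℝ), 0 < C ∧ (i ∈ S → ∀ᶠ j in (u : Filter ℕ),
      C⁻¹ * ‖x j‖ ^ (v : ℝ) ≤ ‖b i j‖ ∧ ‖b i j‖ ≤ C * ‖x j‖ ^ (v : ℝ)) := by
    intro i
    by_cases hi : i ∈ S
    · have hi' := Finset.mem_filter.mp hi
      rcases t_PC u x (b i) hx (hb i (Nat.lt_succ_iff.mp (Finset.mem_range.mp hi'.1))) with h | h
      · exact absurd h hi'.2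
      · obtain ⟨v, C, hC, h⟩ := h
        exact ⟨v, C, hC, fun _ => h⟩
    · exact ⟨0, 1, one_pos, fun h => absurd h hi⟩
  choose v C hC hvC using hex
  obtain ⟨k, hkS, hmax⟩ := Finset.exists_max_image S (fun i => (toLex (v i, i) : ℚ ×ₗ ℕ)) ⟨d, hdS⟩
  set ε₀ : ℝ := 1 / (2 * (d + 1)) with hε₀
  have hε : 0 < ε₀ := by positivity
  have hkd : k ∈ Finset.range (d + 1) := (Finset.mem_filter.mp hkS).1
  have hall : ∀ i ∈ (Finset.range (d + 1)).erase k, ∀ᶠ j in (u : Filter ℕ),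
      ‖b i j * L j ^ i‖ ≤ ε₀ * ‖b k j * L j ^ k‖ := by
    intro i hi
    have hik : i ≠ k := Finset.ne_of_mem_erase hi
    have hir := Finset.mem_of_mem_erase hi
    by_cases hiS : i ∈ S
    · have h1 := hmax i hiS
      have ha := (hvC i hiS).mono fun j h => h.2
      have hb' := (hvC k hkS).mono fun j h => h.1
      rw [Prod.Lex.toLex_le_toLex] at h1
      rcases h1 with h1 | ⟨h1, h2⟩
      · have h3 : (v i : ℝ) < v k := by exact_mod_cast h1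
        exact dom_lt hx hL hs h3 (hC i) (hC k) ha hb' i k hε
      · simp only at h1 h2
        rw [h1] at ha
        exact dom_eq hx hL (hC k) ha hb' (lt_of_le_of_ne h2 hik) hε
    · have h1 : ∀ᶠ j in (u : Filter ℕ), b i j = 0 := by
        by_contra h
        exact hiS (Finset.mem_filter.mpr ⟨hir, h⟩)
      filter_upwards [h1] with j hj
      rw [hj, zero_mul, norm_zero]
      positivity
  have hall' : ∀ᶠ j in (u : Filter ℕ), ∀ i ∈ (Finset.range (d + 1)).erase k,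
      ‖b i j * L j ^ i‖ ≤ ε₀ * ‖b k j * L j ^ k‖ := (Finset.eventually_all _).mpr hall
  have hCd := hC d
  have hCk := hC k
  refine ⟨1 / (2 * (C d * C k)), by positivity, ?_⟩
  have hvle : (v d : ℝ) ≤ v k := by
    have h1 := hmax d hdS
    rw [Prod.Lex.toLex_le_toLex] at h1
    rcases h1 with h1 | ⟨h1, _⟩
    · exact_mod_cast h1.le
    · simp only at h1
      rw [h1]
  filter_upwards [hall', hvC d hdS, hvC k hkS, hx.eventually_ge_atTop 1, hL.eventually_ge_atTop 1]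
    with j h1 h2 h3 h4 h5
  have hx0 : 0 < ‖x j‖ := by linarith
  -- the main term dominates
  have h6 : ‖b k j * L j ^ k‖ / 2 ≤ ‖∑ i ∈ Finset.range (d + 1), b i j * L j ^ i‖ := by
    rw [← Finset.add_sum_erase _ (fun i => b i j * L j ^ i) hkd]
    have h7 : ‖∑ i ∈ (Finset.range (d + 1)).erase k, b i j * L j ^ i‖ ≤ ‖b k j * L j ^ k‖ / 2 := by
      refine (norm_sum_le _ _).trans ((Finset.sum_le_sum h1).trans ?_)
      rw [Finset.sum_const, nsmul_eq_mul, Finset.card_erase_of_mem hkd, Finset.card_range]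
      have h8 : ((d + 1 - 1 : ℕ) : ℝ) ≤ d + 1 := by simp
      have h9 : ((d : ℝ) + 1) * (ε₀ * ‖b k j * L j ^ k‖) = ‖b k j * L j ^ k‖ / 2 := by
        rw [hε₀]; field_simp
      rw [← h9]
      gcongr
    have h8 := norm_sub_le_norm_add (b k j * L j ^ k) (∑ i ∈ (Finset.range (d + 1)).erase k, b i j * L j ^ i)
    linarith
  have h7 : ‖b d j‖ ≤ C d * C k * ‖b k j * L j ^ k‖ := by
    have h8 : ‖x j‖ ^ (v d : ℝ) ≤ ‖x j‖ ^ (v k : ℝ) := Real.rpow_le_rpow_of_exponent_le h4 hvle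
    have h9 : ‖x j‖ ^ (v k : ℝ) ≤ C k * ‖b k j‖ := by
      have := h3.1
      rwa [inv_mul_le_iff₀ hCk] at this
    have h10 : ‖b k j‖ ≤ ‖b k j * L j ^ k‖ := by
      rw [norm_mul, norm_pow]
      exact le_mul_of_one_le_right (norm_nonneg _) (one_le_pow₀ h5)
    calc ‖b d j‖ ≤ C d * ‖x j‖ ^ (v d : ℝ) := h2.2
      _ ≤ C d * (C k * ‖b k j‖) := by gcongr; exact h8.trans h9
      _ ≤ C d * (C k * ‖b k j * L j ^ k‖) := by gcongr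
      _ = C d * C k * ‖b k j * L j ^ k‖ := by ring
  calc 1 / (2 * (C d * C k)) * ‖b d j‖ ≤ 1 / (2 * (C d * C k)) * (C d * C k * ‖b k j * L j ^ k‖) := by
        gcongr
    _ = ‖b k j * L j ^ k‖ / 2 := by field_simp
    _ ≤ _ := h6

end

end Pool.Agent.J4H98.K1
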