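import Pool.Agent.J4H69.K1.Stm

set_option autoImplicit false

/-!
Project K1 of helper69 (`MP_26ad15_nt`), job PC: an algebraic sequence is comparable with a power.
-/

namespace Pool.Agent.J4H98.K1

open Filter Topology Set Metric Polynomial Bornology
open Pool.Agent.J4H69.K1

noncomputable section

/-- a nonzero polynomial is of the size of its leading monomial -/
lemma growth (c : Polynomial ℂ) (hc : c ≠ 0) : ∃ K : ℝ, ∀ᶠ z in cobounded ℂ, c.eval z ≠ 0 ∧
    |Real.log ‖c.eval z‖ - c.natDegree * Real.log ‖z‖| ≤ K := by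
  have h1 := (Polynomial.isEquivalent_cobounded_leading_monomial (P := c)).isTheta
  obtain ⟨K₁, hK₁, hu⟩ := h1.isBigO.exists_pos
  obtain ⟨K₂, hK₂, hl⟩ := h1.isBigO_symm.exists_pos
  rw [Asymptotics.isBigOWith_iff] at hu hl
  have hlead : 0 < ‖c.leadingCoeff‖ := norm_pos_iff.mpr (Polynomial.leadingCoeff_ne_zero.mpr hc)
  refine ⟨|Real.log (K₁ * ‖c.leadingCoeff‖)| + |Real.log (‖c.leadingCoeff‖ / K₂)|, ?_⟩
  filter_upwards [hu, hl, (tendsto_norm_cobounded_atTop (E := ℂ)).eventually_gt_atTop 0] with z h2 h3 h4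
  rw [norm_mul, norm_pow] at h2 h3
  have h5 : 0 < ‖z‖ ^ c.natDegree := by positivity
  have h6 : 0 < ‖c.eval z‖ := by
    by_contra h
    have : ‖c.eval z‖ = 0 := le_antisymm (not_lt.mp h) (norm_nonneg _)
    rw [this, mul_zero] at h3
    have : 0 < ‖c.leadingCoeff‖ * ‖z‖ ^ c.natDegree := by positivity
    linarith
  refine ⟨norm_pos_iff.mp h6, ?_⟩
  have h7 : Real.log ‖c.eval z‖ ≤ Real.log (K₁ * ‖c.leadingCoeff‖) + c.natDegree * Real.log ‖z‖ := by
    rw [← Real.log_pow, ← Real.log_mul (by positivity) (by positivity)]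
    refine Real.log_le_log h6 ?_
    linarith
  have h8 : Real.log (‖c.leadingCoeff‖ / K₂) + c.natDegree * Real.log ‖z‖ ≤ Real.log ‖c.eval z‖ := by
    rw [← Real.log_pow, ← Real.log_mul (by positivity) (by positivity)]
    refine Real.log_le_log (by positivity) ?_
    rw [div_mul_eq_mul_div, div_le_iff₀ hK₂]
    linarith
  rw [abs_le]
  have := le_abs_self (Real.log (K₁ * ‖c.leadingCoeff‖))
  have := neg_abs_le (Real.log (‖c.leadingCoeff‖ / K₂))
  have := abs_nonneg (Real.log (K₁ * ‖c.leadingCoeff‖))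
  have := abs_nonneg (Real.log (‖c.leadingCoeff‖ / K₂))
  constructor <;> linarith

/-- a finite choice is constant along an ultrafilter -/
lemma fin_choice (u : Ultrafilter ℕ) {ι : Type*} (S : Finset ι) (P : ι → ℕ → Prop)
    (h : ∀ᶠ j in (u : Filter ℕ), ∃ l ∈ S, P l j) : ∃ l ∈ S, ∀ᶠ j in (u : Filter ℕ), P l j := by
  have h1 : (⋃ l ∈ (S : Set ι), {j | P l j}) ∈ u := by
    refine Filter.mem_of_superset h ?_
    intro j hj
    obtain ⟨l, hl, hP⟩ := hj
    exact Set.mem_biUnion (show l ∈ (S : Set ι) from hl) hP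
  obtain ⟨l, hl, h2⟩ := (Ultrafilter.finite_biUnion_mem_iff S.finite_toSet).mp h1
  exact ⟨l, hl, h2⟩

lemma evalEval_sum (E : Polynomial (Polynomial ℂ)) (x y : ℂ) :
    E.evalEval x y = ∑ l ∈ E.support, (E.coeff l).eval x * y ^ l := by
  have h : E.eval (C y) = ∑ l ∈ E.support, E.coeff l * (C y) ^ l := by
    rw [Polynomial.eval_eq_sum, Polynomial.sum_def]
  rw [Polynomial.evalEval, h, Polynomial.eval_finsetSum]
  refine Finset.sum_congr rfl fun l _ => ?_
  rw [Polynomial.eval_mul, Polynomial.eval_pow, Polynomial.eval_C]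

theorem t_PC : S_PC := by
  intro u x a hx ha
  obtain ⟨E, hE, hEa⟩ := ha
  by_cases h0 : ∀ᶠ j in (u : Filter ℕ), a j = 0
  · exact Or.inl h0
  right
  have hane : ∀ᶠ j in (u : Filter ℕ), a j ≠ 0 := Ultrafilter.eventually_not.mpr h0
  have hxc : Tendsto x u (cobounded ℂ) := tendsto_norm_atTop_iff_cobounded.mp hx
  set S := E.support with hS
  have hSne : S.Nonempty := Polynomial.support_nonempty.mpr hE
  -- the sizes of the coefficients
  have hg : ∃ K : ℝ, ∀ᶠ j in (u : Filter ℕ), ∀ l ∈ S, (E.coeff l).eval (x j) ≠ 0 ∧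
      |Real.log ‖(E.coeff l).eval (x j)‖ - (E.coeff l).natDegree * Real.log ‖x j‖| ≤ K := by
    have h1 : ∀ l : ℕ, ∃ K : ℝ, l ∈ S → ∀ᶠ z in cobounded ℂ, (E.coeff l).eval z ≠ 0 ∧
        |Real.log ‖(E.coeff l).eval z‖ - (E.coeff l).natDegree * Real.log ‖z‖| ≤ K := by
      intro l
      by_cases hl : l ∈ S
      · obtain ⟨K, hK⟩ := growth (E.coeff l) (Polynomial.mem_support_iff.mp hl)
        exact ⟨K, fun _ => hK⟩
      · exact ⟨0, fun h => absurd h hl⟩
    choose K hK using h1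
    refine ⟨∑ l ∈ S, |K l|, ?_⟩
    rw [Finset.eventually_all]
    intro l hl
    filter_upwards [hxc.eventually (hK l hl)] with j hj
    refine ⟨hj.1, hj.2.trans ((le_abs_self _).trans ?_)⟩
    exact Finset.single_le_sum (f := fun l => |K l|) (fun _ _ => abs_nonneg _) hl
  obtain ⟨K, hK⟩ := hg
  set t : ℕ → ℕ → ℂ := fun l j => (E.coeff l).eval (x j) * a j ^ l with ht
  obtain ⟨l, hl, hmax⟩ := fin_choice u S (fun l j => ∀ m ∈ S, ‖t m j‖ ≤ ‖t l j‖)
    (Eventually.of_forall fun j => Finset.exists_max_image S (fun m => ‖t m j‖) hSne)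
  have hd : (0 : ℝ) < S.card := by exact_mod_cast hSne.card_pos
  have hex : ∀ᶠ j in (u : Filter ℕ), ∃ m ∈ S.erase l, ‖t l j‖ ≤ S.card * ‖t m j‖ := by
    filter_upwards [hEa, hane, hK] with j h1 h2 h3
    by_contra hcon
    push Not at hcon
    rw [evalEval_sum] at h1
    have h4 : t l j + ∑ m ∈ S.erase l, t m j = 0 := by
      rw [Finset.add_sum_erase S (fun m => t m j) hl]
      exact h1
    have h5 : ‖t l j‖ ≤ ∑ m ∈ S.erase l, ‖t m j‖ := by
      rw [eq_neg_of_add_eq_zero_left h4, norm_neg]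
      exact norm_sum_le _ _
    have h6 : 0 < ‖t l j‖ := by
      rw [norm_pos_iff]
      exact mul_ne_zero (h3 l hl).1 (pow_ne_zero _ h2)
    have h7 : ∑ m ∈ S.erase l, ‖t m j‖ ≤ ∑ m ∈ S.erase l, ‖t l j‖ / S.card := by
      refine Finset.sum_le_sum fun m hm => ?_
      rw [le_div_iff₀ hd, mul_comm]
      exact (hcon m hm).le
    rw [Finset.sum_const, nsmul_eq_mul, Finset.card_erase_of_mem hl] at h7
    have h8 : ((S.card - 1 : ℕ) : ℝ) = S.card - 1 := by
      rw [Nat.cast_sub hSne.card_pos]; simp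
    rw [h8] at h7
    have h9 : ((S.card : ℝ) - 1) * (‖t l j‖ / S.card) = ‖t l j‖ - ‖t l j‖ / S.card := by
      field_simp
    have h10 : 0 < ‖t l j‖ / S.card := by positivity
    linarith
  obtain ⟨m, hm, hlow⟩ := fin_choice u (S.erase l) _ hex
  have hml : m ≠ l := Finset.ne_of_mem_erase hm
  have hmS : m ∈ S := Finset.mem_of_mem_erase hm
  have hlm : ((l : ℚ) - m) ≠ 0 := by
    rw [sub_ne_zero]
    exact_mod_cast hml.symm
  set v : ℚ := (((E.coeff m).natDegree : ℚ) - (E.coeff l).natDegree) / ((l : ℚ) - m) with hv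
  have hvr : ((l : ℝ) - m) * (v : ℝ) = (E.coeff m).natDegree - (E.coeff l).natDegree := by
    have h1 : ((l : ℚ) - m) * v = ((E.coeff m).natDegree : ℚ) - (E.coeff l).natDegree := by
      rw [hv]; field_simp
    exact_mod_cast h1
  set M : ℝ := 2 * |K| + |Real.log S.card| with hM
  refine ⟨v, Real.exp M, Real.exp_pos _, ?_⟩
  filter_upwards [hmax, hlow, hK, hane, hx.eventually_gt_atTop 0] with j h1 h2 h3 h4 h5
  have hna : 0 < ‖a j‖ := norm_pos_iff.mpr h4
  have hlogt : ∀ n ∈ S, Real.log ‖t n j‖ = Real.log ‖(E.coeff n).eval (x j)‖ + n * Real.log ‖a j‖ := by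
    intro n hn
    have h6 : 0 < ‖(E.coeff n).eval (x j)‖ := norm_pos_iff.mpr (h3 n hn).1
    rw [ht]
    simp only [norm_mul, norm_pow]
    rw [Real.log_mul h6.ne' (by positivity), Real.log_pow]
  have hpos : ∀ n ∈ S, 0 < ‖t n j‖ := fun n hn => by
    rw [norm_pos_iff]
    exact mul_ne_zero (h3 n hn).1 (pow_ne_zero _ h4)
  have h6 : Real.log ‖t m j‖ ≤ Real.log ‖t l j‖ := Real.log_le_log (hpos m hmS) (h1 m hmS)
  have h7 : Real.log ‖t l j‖ ≤ Real.log S.card + Real.log ‖t m j‖ := by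
    rw [← Real.log_mul hd.ne' (hpos m hmS).ne']
    exact Real.log_le_log (hpos l hl) h2
  rw [hlogt m hmS, hlogt l hl] at h6 h7
  have h8 := abs_le.mp (h3 l hl).2
  have h9 := abs_le.mp (h3 m hmS).2
  have hKK := le_abs_self K
  have hLL := le_abs_self (Real.log S.card)
  have hL0 := abs_nonneg (Real.log S.card)
  have hprod : |((l : ℝ) - m) * (Real.log ‖a j‖ - v * Real.log ‖x j‖)| ≤ M := by
    have h10 : ((l : ℝ) - m) * (Real.log ‖a j‖ - v * Real.log ‖x j‖) =
        ((l : ℝ) - m) * Real.log ‖a j‖ -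
          ((E.coeff m).natDegree - (E.coeff l).natDegree) * Real.log ‖x j‖ := by
      rw [← hvr]; ring
    rw [h10, abs_le]
    constructor <;> nlinarith
  have hone : 1 ≤ |(l : ℝ) - m| := by
    have h11 : (1 : ℤ) ≤ |(l : ℤ) - m| := Int.one_le_abs (sub_ne_zero.mpr (by exact_mod_cast hml.symm))
    exact_mod_cast h11
  have hmain : |Real.log ‖a j‖ - v * Real.log ‖x j‖| ≤ M := by
    rw [abs_mul] at hprod
    nlinarith [abs_nonneg (Real.log ‖a j‖ - v * Real.log ‖x j‖)]
  have hmain' := abs_le.mp hmain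
  have hxv : ‖x j‖ ^ (v : ℝ) = Real.exp (v * Real.log ‖x j‖) := by
    rw [Real.rpow_def_of_pos h5, mul_comm]
  rw [← Real.exp_neg, hxv, ← Real.exp_add, ← Real.exp_add]
  constructor
  · rw [← Real.le_log_iff_exp_le hna]
    linarith
  · rw [← Real.log_le_iff_le_exp hna]
    linarith

end

end Pool.Agent.J4H98.K1
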