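import Pool.Agent.J4H69.K1.Stm

set_option autoImplicit false

/-!
Project K1 of helper69 (`MP_26ad15_nt`), job TRN: the reciprocal of the Gamma function is transcendental.
-/

namespace Pool.Agent.J4H98.K1

open Filter Topology Set Metric Polynomial
open Pool.Agent.J4H69.K1

lemma rg_diff : Differentiable ℂ rg := Complex.differentiable_one_div_Gamma

lemma rg_nat (m : ℕ) : rg (-(m : ℂ)) = 0 := by
  unfold rg
  rw [Complex.Gamma_neg_nat_eq_zero, inv_zero]

/-- the values are entire functions -/
lemma ev_diff (E : Polynomial (Polynomial ℂ)) {g : ℂ → ℂ} (hg : Differentiable ℂ g) :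
    Differentiable ℂ (fun x => E.evalEval x (g x)) := by
  induction E using Polynomial.induction_on' with
  | add p q hp hq =>
    simp only [Polynomial.evalEval_add]
    exact hp.add hq
  | monomial n a =>
    have : (fun x : ℂ => (monomial n a : Polynomial (Polynomial ℂ)).evalEval x (g x)) =
        fun x => a.eval x * g x ^ n := by
      funext x
      rw [Polynomial.evalEval, Polynomial.eval_monomial, Polynomial.eval_mul, Polynomial.eval_pow,
        Polynomial.eval_C]
    rw [this]
    exact a.differentiable.mul (hg.pow n)

lemma ev_zero (E : Polynomial (Polynomial ℂ)) (x : ℂ) : E.evalEval x 0 = (E.coeff 0).eval x := by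
  rw [Polynomial.evalEval, map_zero, Polynomial.coeff_zero_eq_eval_zero]

lemma infinite_zero {p : Polynomial ℂ} (h : ∀ m : ℕ, p.eval (-(m : ℂ)) = 0) : p = 0 := by
  refine Polynomial.eq_zero_of_infinite_isRoot p ?_
  refine Set.infinite_of_injective_forall_mem (f := fun m : ℕ => (-(m : ℂ))) ?_ h
  intro a b hab
  simpa using hab

lemma zero_of_zero (n : ℕ) : ∀ E : Polynomial (Polynomial ℂ), E.natDegree ≤ n →
    (∀ x, E.evalEval x (rg x) = 0) → E = 0 := by
  induction n with
  | zero =>
    intro E hE h
    have h0 : E = C (E.coeff 0) := Polynomial.eq_C_of_natDegree_eq_zero (Nat.le_zero.mp hE)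
    have h1 : E.coeff 0 = 0 := by
      refine infinite_zero fun m => ?_
      rw [← ev_zero]
      have := h (-(m : ℂ))
      rwa [rg_nat] at this
    rw [h0, h1, map_zero]
  | succ n ih =>
    intro E hE h
    have h1 : E.coeff 0 = 0 := by
      refine infinite_zero fun m => ?_
      rw [← ev_zero]
      have := h (-(m : ℂ))
      rwa [rg_nat] at this
    have h2 : E.divX * X = E := by
      have := Polynomial.divX_mul_X_add E
      rwa [h1, map_zero, add_zero] at this
    have h3 : ∀ x, E.divX.evalEval x (rg x) * rg x = 0 := by
      intro x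
      have := h x
      rwa [← h2, Polynomial.evalEval_mul, Polynomial.evalEval_X] at this
    have h4 : E.divX = 0 := by
      refine ih _ ?_ fun x => ?_
      · rw [Polynomial.natDegree_divX_eq_natDegree_tsub_one]
        omega
      · have hA : AnalyticOnNhd ℂ (fun x => E.divX.evalEval x (rg x)) univ :=
          (ev_diff E.divX rg_diff).differentiableOn.analyticOnNhd isOpen_univ
        have hne : ∀ᶠ y in 𝓝 (1 : ℂ), rg y ≠ 0 := by
          refine rg_diff.continuous.continuousAt.eventually_ne ?_
          unfold rg
          rw [Complex.Gamma_one]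
          norm_num
        have hev : (fun x => E.divX.evalEval x (rg x)) =ᶠ[𝓝 (1 : ℂ)] fun _ => 0 := by
          filter_upwards [hne] with y hy
          exact (mul_eq_zero.mp (h3 y)).resolve_right hy
        exact hA.eqOn_zero_of_preconnected_of_eventuallyEq_zero isPreconnected_univ (mem_univ _)
          hev (mem_univ x)
    rw [← h2, h4, zero_mul]

theorem t_TRN : S_TRN := by
  intro E hE x hacc
  have hA : AnalyticOnNhd ℂ (fun x => E.evalEval x (rg x)) univ :=
    (ev_diff E rg_diff).differentiableOn.analyticOnNhd isOpen_univ
  have hfr : ∃ᶠ y in 𝓝[≠] x, E.evalEval y (rg y) = 0 := by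
    rw [accPt_iff_frequently_nhdsNE] at hacc
    exact hacc
  refine hE (zero_of_zero E.natDegree E le_rfl fun y => ?_)
  exact hA.eqOn_zero_of_preconnected_of_frequently_eq_zero isPreconnected_univ (mem_univ x) hfr
    (mem_univ y)

end Pool.Agent.J4H98.K1
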