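import Pool.Agent.J4H69.K1.Stm

set_option autoImplicit false

/-!
Project K1 of helper69 (`MP_26ad15_nt`), job FIN, part A: specialization and sets without accumulation points.
-/

namespace Pool.Agent.J4H98.K1

open Filter Topology Set Metric Polynomial Bornology
open Pool.Agent.J4H69.K1
open Pool.Agent.J4H69.AX (HasDisc HasPiece)

noncomputable section

/-! ### Sets without accumulation points -/

/-- no accumulation point -/
def NoAcc {X : Type} [TopologicalSpace X] (D : Set X) : Prop := ∀ x, ¬ AccPt x (𝓟 D)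

lemma NoAcc.ev {X : Type} [TopologicalSpace X] {D : Set X} (h : NoAcc D) (x : X) :
    ∀ᶠ y in 𝓝 x, y ∈ D → y = x := by
  have h1 := h x
  rw [accPt_iff_frequently_nhdsNE, not_frequently] at h1
  rw [eventually_nhdsWithin_iff] at h1
  filter_upwards [h1] with y hy hyD
  by_contra hne
  exact hy hne hyD

lemma noAcc_of_ev {X : Type} [TopologicalSpace X] {D : Set X} (h : ∀ x, ∀ᶠ y in 𝓝 x, y ∈ D → y = x) :
    NoAcc D := by
  intro x
  rw [accPt_iff_frequently_nhdsNE, not_frequently, eventually_nhdsWithin_iff]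
  filter_upwards [h x] with y hy hne hyD
  exact hne (hy hyD)

lemma NoAcc.mono {X : Type} [TopologicalSpace X] {D D' : Set X} (h : NoAcc D) (hs : D' ⊆ D) : NoAcc D' :=
  noAcc_of_ev fun x => (h.ev x).mono fun _ hy hyD => hy (hs hyD)

lemma NoAcc.union {X : Type} [TopologicalSpace X] {D D' : Set X} (h : NoAcc D) (h' : NoAcc D') :
    NoAcc (D ∪ D') := by
  refine noAcc_of_ev fun x => ?_
  filter_upwards [h.ev x, h'.ev x] with y h1 h2 hy
  rcases hy with hy | hy
  · exact h1 hy
  · exact h2 hy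

lemma NoAcc.closed {X : Type} [TopologicalSpace X] {D : Set X} (h : NoAcc D) : IsClosed D := by
  rw [← isOpen_compl_iff, isOpen_iff_mem_nhds]
  intro x hx
  filter_upwards [h.ev x] with y hy hyD
  rw [hy hyD] at hyD
  exact hx hyD

lemma NoAcc.finite {X : Type} [TopologicalSpace X] {D K : Set X} (h : NoAcc D) (hK : IsCompact K) :
    (D ∩ K).Finite := by
  by_contra hinf
  obtain ⟨x, -, hx⟩ := Set.Infinite.exists_accPt_of_subset_isCompact hinf hK inter_subset_right
  exact h x (hx.mono (principal_mono.mpr inter_subset_left))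

lemma NoAcc.countable {D : Set ℂ} (h : NoAcc D) : D.Countable := by
  have h1 : D = ⋃ n : ℕ, D ∩ closedBall 0 (n : ℝ) := by
    ext x
    simp only [mem_iUnion, mem_inter_iff, mem_closedBall, dist_zero_right, exists_and_left]
    exact ⟨fun hx => ⟨hx, exists_nat_ge ‖x‖⟩, fun hx => hx.1⟩
  rw [h1]
  exact countable_iUnion fun n => (h.finite (isCompact_closedBall 0 (n : ℝ))).countable

/-! ### Specialization -/

/-- the polynomial `A(c, X, rg c)` -/
def spec (c : ℂ) : MvPolynomial (Fin 3) ℂ →+* Polynomial ℂ :=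
  MvPolynomial.eval₂Hom C ![C c, X, C (rg c)]

/-- the polynomial as a polynomial in `z_j` over `ℂ[z_i][y_i]` -/
def Th : MvPolynomial (Fin 3) ℂ →+* Polynomial (Polynomial (Polynomial ℂ)) :=
  MvPolynomial.eval₂Hom (R := ℂ) (S₁ := Polynomial (Polynomial (Polynomial ℂ)))
    ((C : Polynomial (Polynomial ℂ) →+* Polynomial (Polynomial (Polynomial ℂ))).comp
    ((C : Polynomial ℂ →+* Polynomial (Polynomial ℂ)).comp (C : ℂ →+* Polynomial ℂ))) ![C (C X), X, C X]

/-- the inverse of `Th` -/
def Ps : Polynomial (Polynomial (Polynomial ℂ)) →+* MvPolynomial (Fin 3) ℂ :=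
  eval₂RingHom (eval₂RingHom (eval₂RingHom MvPolynomial.C (MvPolynomial.X 0)) (MvPolynomial.X 2))
    (MvPolynomial.X 1)

lemma Ps_Th (A : MvPolynomial (Fin 3) ℂ) : Ps (Th A) = A := by
  have h : Ps.comp Th = RingHom.id _ := by
    refine MvPolynomial.ringHom_ext (fun a => ?_) (fun l => ?_)
    · simp [Ps, Th]
    · fin_cases l <;> simp [Ps, Th]
  exact congrArg (fun f => f A) h

lemma Th_ne {A : MvPolynomial (Fin 3) ℂ} (hA : A ≠ 0) : Th A ≠ 0 := by
  intro h
  apply hA
  rw [← Ps_Th A, h, map_zero]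

lemma spec_eq (c : ℂ) (A : MvPolynomial (Fin 3) ℂ) :
    spec c A = (Th A).map (evalEvalRingHom c (rg c)) := by
  have h : spec c = (mapRingHom (evalEvalRingHom c (rg c))).comp Th := by
    refine MvPolynomial.ringHom_ext (fun a => ?_) (fun l => ?_)
    · simp [spec, Th]
    · fin_cases l <;> simp [spec, Th]
  rw [h]; rfl

lemma spec_noAcc (hT : S_TRN) {A : MvPolynomial (Fin 3) ℂ} (hA : A ≠ 0) : NoAcc {c | spec c A = 0} := by
  obtain ⟨n, hn⟩ : ∃ n, (Th A).coeff n ≠ 0 := by
    by_contra h
    push Not at h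
    exact Th_ne hA (Polynomial.ext h)
  have h1 : NoAcc {c | ((Th A).coeff n).evalEval c (rg c) = 0} := hT _ hn
  refine h1.mono fun c hc => ?_
  have h2 : spec c A = 0 := hc
  have h3 := congrArg (fun q => q.coeff n) h2
  simp only [spec_eq, coeff_map, coeff_zero] at h3
  exact h3

lemma map_spec_noAcc (hT : S_TRN) {E : Polynomial (MvPolynomial (Fin 3) ℂ)} (hE : E ≠ 0) :
    NoAcc {c | E.map (spec c) = 0} := by
  obtain ⟨n, hn⟩ : ∃ n, E.coeff n ≠ 0 := by
    by_contra h
    push Not at h
    exact hE (Polynomial.ext h)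
  refine (spec_noAcc hT hn).mono fun c hc => ?_
  have h2 : E.map (spec c) = 0 := hc
  have h3 := congrArg (fun q => q.coeff n) h2
  simp only [coeff_map, coeff_zero] at h3
  exact h3

/-- evaluation of a relation at a point -/
lemma ev_spec (i j : Fin 3) (z : Fin 3 → ℂ) (A : MvPolynomial (Fin 3) ℂ) :
    MvPolynomial.eval (env rg z) (MvPolynomial.rename ![Sum.inl i, Sum.inl j, Sum.inr i] A) =
      (spec (z i) A).eval (z j) := by
  have h : (MvPolynomial.eval (env rg z)).comp
      (MvPolynomial.rename (R := ℂ) ![Sum.inl i, Sum.inl j, Sum.inr i]).toRingHom =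
      (evalRingHom (z j)).comp (spec (z i)) := by
    refine MvPolynomial.ringHom_ext (fun a => ?_) (fun l => ?_)
    · simp [spec]
    · fin_cases l <;> simp [spec, env]
  exact congrArg (fun f => f A) h

lemma ev_rel (i j : Fin 3) (z : Fin 3 → ℂ) (E : Polynomial (MvPolynomial (Fin 3) ℂ)) (U : Pol) :
    MvPolynomial.eval (env rg z)
      ((E.map (MvPolynomial.rename ![Sum.inl i, Sum.inl j, Sum.inr i] :
        MvPolynomial (Fin 3) ℂ →ₐ[ℂ] Pol).toRingHom).eval U) =
      (E.map (spec (z i))).evalEval (z j) (MvPolynomial.eval (env rg z) U) := by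
  have h : (MvPolynomial.eval (env rg z)).comp
      (MvPolynomial.rename (R := ℂ) ![Sum.inl i, Sum.inl j, Sum.inr i]).toRingHom =
      (evalRingHom (z j)).comp (spec (z i)) := by
    refine RingHom.ext fun A => ?_
    exact ev_spec i j z A
  rw [Polynomial.eval_map, Polynomial.hom_eval₂, h]
  rw [Polynomial.evalEval, Polynomial.eval_map]
  have h2 := Polynomial.hom_eval₂ E (spec (z i)) (evalRingHom (z j))
    (C (MvPolynomial.eval (env rg z) U))
  rw [coe_evalRingHom] at h2
  rw [h2, eval_C]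

end

end Pool.Agent.J4H98.K1
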