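import Pool.Agent.J4H98.K1.FinA
import Pool.Agent.J4H98.K1.Trn

set_option autoImplicit false

/-!
Project K1 of helper69 (`MP_26ad15_nt`), job FIN, part B: fibres, density, the determinant.
-/

namespace Pool.Agent.J4H98.K1

open Filter Topology Set Metric Polynomial Bornology
open Pool.Agent.J4H69.K1
open Pool.Agent.J4H69.AX (HasDisc HasPiece)

noncomputable section

/-- the three indices exhaust `Fin 3` -/
lemma three {i j k : Fin 3} (hij : i ≠ j) (hik : i ≠ k) (hjk : j ≠ k) (l : Fin 3) :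
    l = i ∨ l = j ∨ l = k := by
  revert i j k l
  decide

/-- a fibre whose coordinates lie in sets without accumulation points -/
lemma fibre_noAcc {T : Set (Fin 3 → ℂ)} {i j k : Fin 3} (hij : i ≠ j) (hik : i ≠ k) (hjk : j ≠ k)
    {c : ℂ} {D D' : Set ℂ} (hD : NoAcc D) (hD' : NoAcc D') (h : ∀ z ∈ T, z i = c → z j ∈ D)
    (h' : ∀ z ∈ T, z i = c → z k ∈ D') : NoAcc {z ∈ T | z i = c} := by
  refine noAcc_of_ev fun x => ?_
  have hc : ∀ l : Fin 3, Tendsto (fun z : Fin 3 → ℂ => z l) (𝓝 x) (𝓝 (x l)) := fun l =>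
    (continuous_apply l).continuousAt
  have h1 : ∀ᶠ z in 𝓝 x, z i = c → c = x i := by
    by_cases hxc : c = x i
    · exact Eventually.of_forall fun _ _ => hxc
    · filter_upwards [(hc i).eventually_ne (Ne.symm hxc)] with z hz hz'
      exact absurd hz' hz
  filter_upwards [h1, (hc j).eventually (hD.ev (x j)), (hc k).eventually (hD'.ev (x k))] with z h2 h3 h4 hz
  funext l
  rcases three hij hik hjk l with rfl | rfl | rfl
  · rw [hz.2]; exact h2 hz.2
  · exact h3 (h z hz.1 hz.2)
  · exact h4 (h' z hz.1 hz.2)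

/-- the coordinate `z_j` tends to infinity on an infinite fibre -/
lemma coord_tendsto {i j k : Fin 3} (hij : i ≠ j) (hik : i ≠ k) (hjk : j ≠ k)
    {Q : MvPolynomial (Fin 3) ℂ} {c : ℂ} {D : Set ℂ} (hD : NoAcc D) {p : ℕ → (Fin 3 → ℂ)}
    (hp : Function.Injective p) (hpi : ∀ n, p n i = c) (hpj : ∀ n, p n j ∈ D)
    (hpQ : ∀ n, MvPolynomial.eval (p n) Q = 0)
    (hc : c ∉ {a : ℂ | ∃ z : Fin 3 → ℂ, z i = a ∧ ∀ t, MvPolynomial.eval (Function.update z k t) Q = 0}) :
    Tendsto (fun n => ‖p n j‖) atTop atTop := by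
  rw [← Nat.cofinite_eq_atTop, Filter.tendsto_atTop]
  intro R
  rw [eventually_cofinite]
  have hfin : (D ∩ closedBall 0 R).Finite := hD.finite (isCompact_closedBall 0 R)
  have hsub : {n | ¬ R ≤ ‖p n j‖} ⊆ ⋃ b ∈ D ∩ closedBall 0 R, {n | p n j = b} := by
    intro n hn
    have hn' : ¬ R ≤ ‖p n j‖ := hn
    rw [mem_iUnion₂]
    refine ⟨p n j, ⟨hpj n, ?_⟩, rfl⟩
    rw [mem_closedBall, dist_zero_right]
    exact (not_le.mp hn').le
  refine Set.Finite.subset (hfin.biUnion fun b _ => ?_) hsub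
  set z₀ : Fin 3 → ℂ := fun l => if l = i then c else b with hz₀
  set q : Polynomial ℂ := MvPolynomial.eval₂Hom C (fun l => if l = k then X else C (z₀ l)) Q with hq
  have hqe : ∀ t, q.eval t = MvPolynomial.eval (Function.update z₀ k t) Q := by
    intro t
    have h : (evalRingHom t).comp (MvPolynomial.eval₂Hom C (fun l => if l = k then X else C (z₀ l))) =
        MvPolynomial.eval (Function.update z₀ k t) := by
      refine MvPolynomial.ringHom_ext (fun a => ?_) (fun l => ?_)
      · simp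
      · by_cases hl : l = k
        · simp [hl]
        · simp [hl]
    exact congrArg (fun f => f Q) h
  have hq0 : q ≠ 0 := by
    intro h0
    refine hc ⟨z₀, by simp [hz₀], fun t => ?_⟩
    rw [← hqe, h0, eval_zero]
  have hup : ∀ n, p n j = b → Function.update z₀ k (p n k) = p n := by
    intro n hn
    funext l
    rcases three hij hik hjk l with rfl | rfl | rfl
    · rw [Function.update_of_ne hik]
      simp [hz₀, hpi]
    · rw [Function.update_of_ne hjk]
      simp [hz₀, hn, Ne.symm hij]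
    · rw [Function.update_self]
  have hroots : {t : ℂ | q.IsRoot t}.Finite := Polynomial.finite_setOfPred_isRoot hq0
  refine Set.Finite.of_injOn (f := fun n => p n k) (t := {t : ℂ | q.IsRoot t}) ?_ ?_ hroots
  · intro n hn
    change q.eval (p n k) = 0
    rw [hqe, hup n hn]
    exact hpQ n
  · intro n hn m hm hnm
    apply hp
    rw [← hup n hn, ← hup m hm]
    simp only at hnm
    rw [hnm]

/-- points outside a countable set are dense in a perfect closed set -/
lemma dense_perfect {n : ℕ} {T B : Set (Fin n → ℂ)} (hT : IsClosed T)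
    (hperf : ∀ x ∈ T, x ∈ closure (T \ {x})) (hB : B.Countable) : T ⊆ closure (T \ B) := by
  have : CompleteSpace T := hT.completeSpace_coe
  have h1 : Dense (⋂ b ∈ B, {y : T | (y : Fin n → ℂ) ≠ b}) := by
    refine dense_biInter_of_isOpen (fun b _ => ?_) hB (fun b _ => ?_)
    · exact isOpen_ne_fun continuous_subtype_val continuous_const
    · intro y
      by_cases hy : (y : Fin n → ℂ) = b
      · rw [closure_subtype]
        have h2 : Subtype.val '' {y : T | (y : Fin n → ℂ) ≠ b} = T \ {b} := by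
          ext w
          constructor
          · rintro ⟨w', hw', rfl⟩
            exact ⟨w'.2, hw'⟩
          · rintro ⟨hw, hwb⟩
            exact ⟨⟨w, hw⟩, hwb, rfl⟩
        rw [h2, ← hy]
        exact hperf y.1 y.2
      · exact subset_closure hy
  intro x hx
  have h2 := h1 ⟨x, hx⟩
  rw [closure_subtype] at h2
  refine closure_mono ?_ h2
  rintro w ⟨w', hw', rfl⟩
  refine ⟨w'.2, fun hwB => ?_⟩
  rw [mem_iInter₂] at hw'
  exact hw' _ hwB rfl

lemma ev_cont (R : Pol) : Continuous (fun z : Fin 3 → ℂ => MvPolynomial.eval (env rg z) R) := by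
  have h1 : Continuous (fun z : Fin 3 → ℂ => env rg z) := by
    refine continuous_pi fun l => ?_
    rcases l with l | l
    · exact continuous_apply l
    · exact rg_diff.continuous.comp (continuous_apply l)
  exact (MvPolynomial.continuous_eval R).comp h1

lemma drg_cont : Continuous (deriv rg) :=
  (rg_diff.contDiff (n := 1)).continuous_deriv le_rfl

/-- the determinant vanishes on all of `T` -/
lemma det_zero (hDet : S_DET) {T : Set (Fin 3 → ℂ)} (hT : Good T) (R : Fin 3 → Pol)
    (hR : ∀ z ∈ T, ∀ k, MvPolynomial.eval (env rg z) (R k) = 0) (z : Fin 3 → ℂ) (hz : z ∈ T) :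
    Matrix.det (Matrix.of fun k i => dd rg (R k) i z) = 0 := by
  obtain ⟨hcl, hperf, B, hB, hBp⟩ := hT
  have hcont : Continuous (fun z : Fin 3 → ℂ => Matrix.det (Matrix.of fun k i => dd rg (R k) i z)) := by
    refine Continuous.matrix_det (continuous_matrix fun a b => ?_)
    simp only [Matrix.of_apply, dd]
    exact (ev_cont _).add ((ev_cont _).mul (drg_cont.comp (continuous_apply b)))
  have hclosed : IsClosed {z : Fin 3 → ℂ | Matrix.det (Matrix.of fun k i => dd rg (R k) i z) = 0} :=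
    isClosed_eq hcont continuous_const
  have hsub : T \ B ⊆ {z : Fin 3 → ℂ | Matrix.det (Matrix.of fun k i => dd rg (R k) i z) = 0} := by
    intro w hw
    exact hDet rg rg_diff T R hR w hw.1 (hBp w hw.1 hw.2)
  exact closure_minimal hsub hclosed (dense_perfect hcl hperf hB hz)

/-- the determinant with the columns in the order `i, j, k` -/
lemma det_perm {i j k : Fin 3} (hij : i ≠ j) (hik : i ≠ k) (hjk : j ≠ k) (f : Fin 3 → Fin 3 → ℂ)
    (h : Matrix.det (Matrix.of f) = 0) :
    f 0 i * (f 1 j * f 2 k - f 1 k * f 2 j) - f 0 j * (f 1 i * f 2 k - f 1 k * f 2 i) +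
      f 0 k * (f 1 i * f 2 j - f 1 j * f 2 i) = 0 := by
  rw [Matrix.det_fin_three] at h
  simp only [Matrix.of_apply] at h
  have hc : (i = 0 ∧ j = 1 ∧ k = 2) ∨ (i = 1 ∧ j = 2 ∧ k = 0) ∨ (i = 2 ∧ j = 0 ∧ k = 1) ∨
      (i = 0 ∧ j = 2 ∧ k = 1) ∨ (i = 1 ∧ j = 0 ∧ k = 2) ∨ (i = 2 ∧ j = 1 ∧ k = 0) := by
    revert hij hik hjk
    clear h
    revert i j k
    decide
  rcases hc with ⟨rfl, rfl, rfl⟩ | ⟨rfl, rfl, rfl⟩ | ⟨rfl, rfl, rfl⟩ | ⟨rfl, rfl, rfl⟩ | ⟨rfl, rfl, rfl⟩ |
    ⟨rfl, rfl, rfl⟩
  · linear_combination h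
  · linear_combination h
  · linear_combination h
  · linear_combination (-1 : ℂ) * h
  · linear_combination (-1 : ℂ) * h
  · linear_combination (-1 : ℂ) * h

end

end Pool.Agent.J4H98.K1
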